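import Pool.Agent.H561R2.CF.Grammar

/-!
# The language

The words consist of blocks of rows; a row is a flag (`yes` or `no`) followed by a text of
pushes and pops; a block ends with `sep`. A pushdown automaton chooses one row with the flag `yes` in
each block and executes its text. A word is in the language if this is possible such that the stack
is empty at the end.
-/

namespace Pool.Agent.W985.RK

open Pool.Agent.H561R2.CF (Yd yd_iff)

/-- The letters. -/
inductive Lt : Type
  | push (b : Bool) | pop (b : Bool) | yes | no | sep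
  deriving DecidableEq

instance : Fintype Lt where
  elems := {.push true, .push false, .pop true, .pop false, .yes, .no, .sep}
  complete := by
    intro a
    cases a with
    | push b => cases b <;> decide
    | pop b => cases b <;> decide
    | _ => decide

/-- The states of the pushdown automaton: looking for a row of the block, executing a row, and
skipping the rest of the block. -/
inductive St : Type
  | look | act | done

/-- The automaton in the given state and with the given stack (the top comes first) can accept the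
rest of the word. -/
def Acc : List Lt → St → List Bool → Prop
  | [], .look, σ => σ = []
  | [], .act, _ => False
  | [], .done, _ => False
  | .sep :: _, .look, _ => False
  | .yes :: w, .look, σ => Acc w .look σ ∨ Acc w .act σ
  | .no :: w, .look, σ => Acc w .look σ
  | .push _ :: w, .look, σ => Acc w .look σ
  | .pop _ :: w, .look, σ => Acc w .look σ
  | .push b :: w, .act, σ => Acc w .act (b :: σ)
  | .pop b :: w, .act, σ => ∃ σ', σ = b :: σ' ∧ Acc w .act σ'
  | .yes :: w, .act, σ => Acc w .done σ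
  | .no :: w, .act, σ => Acc w .done σ
  | .sep :: w, .act, σ => Acc w .look σ
  | .sep :: w, .done, σ => Acc w .look σ
  | .yes :: w, .done, σ => Acc w .done σ
  | .no :: w, .done, σ => Acc w .done σ
  | .push _ :: w, .done, σ => Acc w .done σ
  | .pop _ :: w, .done, σ => Acc w .done σ

/-- The language. -/
def lang : Language Lt := {w | Acc w .look []}

/-- The nonterminals. -/
inductive NT : Type
  | S | K | P | Q | D | E | G
  deriving DecidableEq

/-- The letters which are skipped. -/
def skips : List Lt := [.push true, .push false, .pop true, .pop false, .yes, .no]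

theorem mem_skips {a : Lt} : a ∈ skips ↔ a ≠ .sep := by
  cases a with
  | push b => cases b <;> decide
  | pop b => cases b <;> decide
  | _ => decide

/-- The words generated by the nonterminals. -/
inductive Y : NT → List Lt → Prop
  | s0 {u : List Lt} : Y .K u → Y .S u
  | s1 {u v w : List Lt} : Y .P u → Y .D v → Y .E w → Y .S (u ++ (v ++ w))
  | k0 : Y .K []
  | k1 {a : Lt} {u : List Lt} : a ∈ skips → Y .K u → Y .K (a :: u)
  | p0 : Y .P [.yes]
  | p1 {a : Lt} {u : List Lt} : a ∈ skips → Y .P u → Y .P (a :: u)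
  | q0 {u : List Lt} : Y .P u → Y .Q (.sep :: u)
  | q1 {a : Lt} {u : List Lt} : a ∈ skips → Y .Q u → Y .Q (a :: u)
  | d0 : Y .D []
  | d1 {b : Bool} {u v : List Lt} : Y .D u → Y .D v → Y .D (.push b :: (u ++ .pop b :: v))
  | d2 {u v : List Lt} : Y .P u → Y .D v → Y .D (.sep :: (u ++ v))
  | d3 {u v : List Lt} : Y .Q u → Y .D v → Y .D (.yes :: (u ++ v))
  | d4 {u v : List Lt} : Y .Q u → Y .D v → Y .D (.no :: (u ++ v))
  | e0 {u : List Lt} : Y .K u → Y .E (.sep :: u)
  | e1 {u : List Lt} : Y .G u → Y .E (.yes :: u)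
  | e2 {u : List Lt} : Y .G u → Y .E (.no :: u)
  | g0 {u : List Lt} : Y .K u → Y .G (.sep :: u)
  | g1 {a : Lt} {u : List Lt} : a ∈ skips → Y .G u → Y .G (a :: u)

theorem acc_look_skip {a : Lt} (ha : a ∈ skips) {w : List Lt} {σ : List Bool}
    (h : Acc w .look σ) : Acc (a :: w) .look σ := by
  cases a with
  | push b => exact h
  | pop b => exact h
  | yes => exact Or.inl h
  | no => exact h
  | sep => exact absurd rfl (mem_skips.1 ha)

theorem acc_done_skip {a : Lt} (ha : a ∈ skips) {w : List Lt} {σ : List Bool}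
    (h : Acc w .done σ) : Acc (a :: w) .done σ := by
  cases a with
  | push b => exact h
  | pop b => exact h
  | yes => exact h
  | no => exact h
  | sep => exact absurd rfl (mem_skips.1 ha)

/-- The computations which are described by the nonterminals. -/
def Sem : NT → List Lt → Prop
  | .S, w => Acc w .look []
  | .K, w => Acc w .look []
  | .E, w => Acc w .act []
  | .G, w => Acc w .done []
  | .P, w => ∀ σ v, Acc v .act σ → Acc (w ++ v) .look σ
  | .Q, w => ∀ σ v, Acc v .act σ → Acc (w ++ v) .done σ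
  | .D, w => ∀ σ v, Acc v .act σ → Acc (w ++ v) .act σ

theorem Y.sem {X : NT} {w : List Lt} (h : Y X w) : Sem X w := by
  induction h with
  | s0 _ h1 => exact h1
  | s1 _ _ _ h1 h2 h3 => exact h1 _ _ (h2 _ _ h3)
  | k0 => exact rfl
  | k1 ha _ h1 => exact acc_look_skip ha h1
  | p0 => exact fun σ v hv => Or.inr hv
  | p1 ha _ h1 => exact fun σ v hv => acc_look_skip ha (h1 σ v hv)
  | q0 _ h1 => exact fun σ v hv => h1 σ v hv
  | q1 ha _ h1 => exact fun σ v hv => acc_done_skip ha (h1 σ v hv)
  | d0 => exact fun σ v hv => hv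
  | @d1 b u v _ _ h1 h2 =>
    intro σ w hw
    show Acc ((u ++ .pop b :: v) ++ w) .act (b :: σ)
    rw [List.append_assoc]
    exact h1 _ _ ⟨σ, rfl, h2 σ w hw⟩
  | @d2 u v _ _ h1 h2 =>
    intro σ w hw
    show Acc ((u ++ v) ++ w) .look σ
    rw [List.append_assoc]
    exact h1 _ _ (h2 _ _ hw)
  | @d3 u v _ _ h1 h2 =>
    intro σ w hw
    show Acc ((u ++ v) ++ w) .done σ
    rw [List.append_assoc]
    exact h1 _ _ (h2 _ _ hw)
  | @d4 u v _ _ h1 h2 =>
    intro σ w hw
    show Acc ((u ++ v) ++ w) .done σ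
    rw [List.append_assoc]
    exact h1 _ _ (h2 _ _ hw)
  | e0 _ h1 => exact h1
  | e1 _ h1 => exact h1
  | e2 _ h1 => exact h1
  | g0 _ h1 => exact h1
  | g1 ha _ h1 => exact acc_done_skip ha h1

/-- The words which lead from the state `act` with the stack `σ` to the end. -/
def TS : List Bool → List Lt → Prop
  | [], w => ∃ d e, w = d ++ e ∧ Y .D d ∧ Y .E e
  | b :: σ, w => ∃ d v, w = d ++ .pop b :: v ∧ Y .D d ∧ TS σ v

theorem TS.ext {x : List Lt} (hx : ∀ d, Y .D d → Y .D (x ++ d)) {σ : List Bool} {v : List Lt}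
    (h : TS σ v) : TS σ (x ++ v) := by
  cases σ with
  | nil =>
    obtain ⟨d, e, rfl, h1, h2⟩ := h
    exact ⟨x ++ d, e, (List.append_assoc _ _ _).symm, hx d h1, h2⟩
  | cons b σ =>
    obtain ⟨d, v', rfl, h1, h2⟩ := h
    exact ⟨x ++ d, v', (List.append_assoc _ _ _).symm, hx d h1, h2⟩

/-- The words which lead from the state `look` with the stack `σ` to the end. -/
def OS (σ : List Bool) (w : List Lt) : Prop :=
  (σ = [] ∧ Y .K w) ∨ ∃ u v, w = u ++ v ∧ Y .P u ∧ TS σ v

/-- The words which lead from the state `done` with the stack `σ` to the end. -/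
def ES (σ : List Bool) (w : List Lt) : Prop :=
  (σ = [] ∧ Y .G w) ∨ ∃ u v, w = u ++ v ∧ Y .Q u ∧ TS σ v

theorem OS.skip {a : Lt} (ha : a ∈ skips) {σ : List Bool} {w : List Lt} (h : OS σ w) :
    OS σ (a :: w) := by
  rcases h with ⟨h1, h2⟩ | ⟨u, v, rfl, h1, h2⟩
  · exact Or.inl ⟨h1, .k1 ha h2⟩
  · exact Or.inr ⟨a :: u, v, rfl, .p1 ha h1, h2⟩

theorem ES.skip {a : Lt} (ha : a ∈ skips) {σ : List Bool} {w : List Lt} (h : ES σ w) :
    ES σ (a :: w) := by
  rcases h with ⟨h1, h2⟩ | ⟨u, v, rfl, h1, h2⟩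
  · exact Or.inl ⟨h1, .g1 ha h2⟩
  · exact Or.inr ⟨a :: u, v, rfl, .q1 ha h1, h2⟩

theorem OS.toES {σ : List Bool} {w : List Lt} (h : OS σ w) : ES σ (.sep :: w) := by
  rcases h with ⟨h1, h2⟩ | ⟨u, v, rfl, h1, h2⟩
  · exact Or.inl ⟨h1, .g0 h2⟩
  · exact Or.inr ⟨.sep :: u, v, rfl, .q0 h1, h2⟩

theorem OS.toTS {σ : List Bool} {w : List Lt} (h : OS σ w) : TS σ (.sep :: w) := by
  rcases h with ⟨rfl, h2⟩ | ⟨u, v, rfl, h1, h2⟩
  · exact ⟨[], _, rfl, .d0, .e0 h2⟩
  · have := h2.ext (x := .sep :: u) fun d hd => .d2 h1 hd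
    exact this

theorem ES.yes {σ : List Bool} {w : List Lt} (h : ES σ w) : TS σ (.yes :: w) := by
  rcases h with ⟨rfl, h2⟩ | ⟨u, v, rfl, h1, h2⟩
  · exact ⟨[], _, rfl, .d0, .e1 h2⟩
  · have := h2.ext (x := .yes :: u) fun d hd => .d3 h1 hd
    exact this

theorem ES.no {σ : List Bool} {w : List Lt} (h : ES σ w) : TS σ (.no :: w) := by
  rcases h with ⟨rfl, h2⟩ | ⟨u, v, rfl, h1, h2⟩
  · exact ⟨[], _, rfl, .d0, .e2 h2⟩
  · have := h2.ext (x := .no :: u) fun d hd => .d4 h1 hd
    exact this

theorem acc_to : ∀ (w : List Lt) (σ : List Bool), (Acc w .look σ → OS σ w) ∧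
    (Acc w .act σ → TS σ w) ∧ (Acc w .done σ → ES σ w) := by
  intro w
  induction w with
  | nil =>
    intro σ
    refine ⟨fun h => ?_, fun h => ?_, fun h => ?_⟩
    · exact Or.inl ⟨h, .k0⟩
    · exact absurd h not_false
    · exact absurd h not_false
  | cons a w ih =>
    intro σ
    cases a with
    | push b =>
      refine ⟨fun h => ((ih σ).1 h).skip (by cases b <;> decide), fun h => ?_,
        fun h => ((ih σ).2.2 h).skip (by cases b <;> decide)⟩
      obtain ⟨d, v, rfl, h1, h2⟩ := (ih (b :: σ)).2.1 h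
      have : (Lt.push b :: (d ++ Lt.pop b :: v)) = (.push b :: (d ++ [.pop b])) ++ v := by simp
      rw [this]
      refine h2.ext fun d' hd' => ?_
      have e : (Lt.push b :: (d ++ [Lt.pop b])) ++ d' = .push b :: (d ++ .pop b :: d') := by simp
      rw [e]
      exact .d1 h1 hd'
    | pop b =>
      refine ⟨fun h => ((ih σ).1 h).skip (by cases b <;> decide), fun h => ?_,
        fun h => ((ih σ).2.2 h).skip (by cases b <;> decide)⟩
      obtain ⟨σ', rfl, h1⟩ := h
      exact ⟨[], w, rfl, .d0, (ih σ').2.1 h1⟩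
    | yes =>
      refine ⟨fun h => ?_, fun h => ((ih σ).2.2 h).yes, fun h => ((ih σ).2.2 h).skip (by decide)⟩
      rcases h with h | h
      · exact ((ih σ).1 h).skip (by decide)
      · exact Or.inr ⟨[.yes], w, rfl, .p0, (ih σ).2.1 h⟩
    | no =>
      exact ⟨fun h => ((ih σ).1 h).skip (by decide), fun h => ((ih σ).2.2 h).no,
        fun h => ((ih σ).2.2 h).skip (by decide)⟩
    | sep =>
      exact ⟨fun h => absurd h not_false, fun h => ((ih σ).1 h).toTS, fun h => ((ih σ).1 h).toES⟩

theorem mem_lang_iff (w : List Lt) : w ∈ lang ↔ Y .S w := by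
  constructor
  · intro h
    rcases (acc_to w []).1 h with ⟨-, h1⟩ | ⟨u, v, rfl, h1, d, e, rfl, h2, h3⟩
    · exact .s0 h1
    · exact .s1 h1 h2 h3
  · intro h
    exact h.sem

/-- The rules of the grammar. -/
def ruleList : List (ContextFreeRule Lt NT) :=
  [⟨.S, [.nonterminal .K]⟩,
    ⟨.S, [.nonterminal .P, .nonterminal .D, .nonterminal .E]⟩,
    ⟨.K, []⟩,
    ⟨.P, [.terminal .yes]⟩,
    ⟨.Q, [.terminal .sep, .nonterminal .P]⟩,
    ⟨.D, []⟩,
    ⟨.D, [.terminal .sep, .nonterminal .P, .nonterminal .D]⟩,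
    ⟨.D, [.terminal .yes, .nonterminal .Q, .nonterminal .D]⟩,
    ⟨.D, [.terminal .no, .nonterminal .Q, .nonterminal .D]⟩,
    ⟨.E, [.terminal .sep, .nonterminal .K]⟩,
    ⟨.E, [.terminal .yes, .nonterminal .G]⟩,
    ⟨.E, [.terminal .no, .nonterminal .G]⟩,
    ⟨.G, [.terminal .sep, .nonterminal .K]⟩] ++
  [true, false].map (fun b =>
    ⟨.D, [.terminal (.push b), .nonterminal .D, .terminal (.pop b), .nonterminal .D]⟩) ++
  [NT.K, NT.P, NT.Q, NT.G].flatMap (fun X => skips.map fun a =>
    ⟨X, [.terminal a, .nonterminal X]⟩)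

/-- The grammar. -/
def gram : ContextFreeGrammar Lt where
  NT := NT
  initial := .S
  rules := ruleList.toFinset

/-- The words described by a sentential form. -/
def YL : List (Symbol Lt NT) → List Lt → Prop
  | [], w => w = []
  | .terminal a :: s, w => ∃ w', w = a :: w' ∧ YL s w'
  | .nonterminal X :: s, w => ∃ u v, w = u ++ v ∧ Y X u ∧ YL s v

theorem rule_sound {r : ContextFreeRule Lt NT} (hr : r ∈ ruleList) {u : List Lt}
    (h : YL r.output u) : Y r.input u := by
  unfold ruleList at hr
  rw [List.mem_append, List.mem_append] at hr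
  rcases hr with (hr | hr) | hr
  · simp only [List.mem_cons, List.not_mem_nil, or_false] at hr
    rcases hr with rfl | rfl | rfl | rfl | rfl | rfl | rfl | rfl | rfl | rfl | rfl | rfl | rfl
    · obtain ⟨a, b, rfl, h1, rfl⟩ := h
      rw [List.append_nil]
      exact .s0 h1
    · obtain ⟨a, b, rfl, h1, c, d, rfl, h2, e, f, rfl, h3, rfl⟩ := h
      rw [List.append_nil]
      exact .s1 h1 h2 h3
    · have : u = [] := h
      subst this
      exact .k0
    · obtain ⟨a, rfl, rfl⟩ := h
      exact .p0
    · obtain ⟨a, rfl, b, c, rfl, h1, rfl⟩ := h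
      rw [List.append_nil]
      exact .q0 h1
    · have : u = [] := h
      subst this
      exact .d0
    · obtain ⟨a, rfl, b, c, rfl, h1, d, e, rfl, h2, rfl⟩ := h
      rw [List.append_nil]
      exact .d2 h1 h2
    · obtain ⟨a, rfl, b, c, rfl, h1, d, e, rfl, h2, rfl⟩ := h
      rw [List.append_nil]
      exact .d3 h1 h2
    · obtain ⟨a, rfl, b, c, rfl, h1, d, e, rfl, h2, rfl⟩ := h
      rw [List.append_nil]
      exact .d4 h1 h2
    · obtain ⟨a, rfl, b, c, rfl, h1, rfl⟩ := h
      rw [List.append_nil]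
      exact .e0 h1
    · obtain ⟨a, rfl, b, c, rfl, h1, rfl⟩ := h
      rw [List.append_nil]
      exact .e1 h1
    · obtain ⟨a, rfl, b, c, rfl, h1, rfl⟩ := h
      rw [List.append_nil]
      exact .e2 h1
    · obtain ⟨a, rfl, b, c, rfl, h1, rfl⟩ := h
      rw [List.append_nil]
      exact .g0 h1
  · rw [List.mem_map] at hr
    obtain ⟨b, -, rfl⟩ := hr
    obtain ⟨a, rfl, c, d, rfl, h1, e, rfl, f, i, rfl, h2, rfl⟩ := h
    rw [List.append_nil]
    exact .d1 h1 h2
  · rw [List.mem_flatMap] at hr
    obtain ⟨X, hX, hr⟩ := hr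
    rw [List.mem_map] at hr
    obtain ⟨a, ha, rfl⟩ := hr
    obtain ⟨b, rfl, c, d, rfl, h1, rfl⟩ := h
    rw [List.append_nil]
    simp only [List.mem_cons, List.not_mem_nil, or_false] at hX
    rcases hX with rfl | rfl | rfl | rfl
    · exact .k1 ha h1
    · exact .p1 ha h1
    · exact .q1 ha h1
    · exact .g1 ha h1

theorem YL_of_yd {s : List (Symbol Lt NT)} {w : List Lt} (h : Yd ruleList.toFinset s w) :
    YL s w := by
  induction h with
  | nil => exact rfl
  | term _ ih => exact ⟨_, rfl, ih⟩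
  | nt hr _ _ ih1 ih2 => exact ⟨_, _, rfl, rule_sound (List.mem_toFinset.1 hr) ih1, ih2⟩

theorem yd_rule {X : NT} {s : List (Symbol Lt NT)} {u : List Lt}
    (hr : (⟨X, s⟩ : ContextFreeRule Lt NT) ∈ ruleList) (h : Yd ruleList.toFinset s u) :
    Yd ruleList.toFinset [.nonterminal X] u := by
  have := Yd.nt (r := ⟨X, s⟩) (List.mem_toFinset.2 hr) h .nil
  rw [List.append_nil] at this
  exact this

theorem skip_rule {X : NT} (hX : X ∈ [NT.K, NT.P, NT.Q, NT.G]) {a : Lt} (ha : a ∈ skips)
    {u : List Lt} (h : Yd ruleList.toFinset [.nonterminal X] u) :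
    Yd ruleList.toFinset [.nonterminal X] (a :: u) := by
  refine yd_rule (s := [.terminal a, .nonterminal X]) ?_ (.term h)
  unfold ruleList
  refine List.mem_append_right _ (List.mem_flatMap.2 ⟨X, hX, List.mem_map.2 ⟨a, ha, rfl⟩⟩)

theorem Y.yd {X : NT} {w : List Lt} (h : Y X w) :
    Yd ruleList.toFinset [.nonterminal X] w := by
  induction h with
  | s0 _ h1 => exact yd_rule (s := [.nonterminal .K]) (by simp [ruleList]) h1
  | @s1 u v w _ _ _ h1 h2 h3 =>
    exact yd_rule (s := [.nonterminal .P, .nonterminal .D, .nonterminal .E])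
      (by simp [ruleList]) (h1.append (h2.append h3))
  | k0 => exact yd_rule (s := []) (by simp [ruleList]) .nil
  | k1 ha _ h1 => exact skip_rule (by decide) ha h1
  | p0 => exact yd_rule (s := [.terminal .yes]) (by simp [ruleList]) (.term .nil)
  | p1 ha _ h1 => exact skip_rule (by decide) ha h1
  | q0 _ h1 =>
    exact yd_rule (s := [.terminal .sep, .nonterminal .P]) (by simp [ruleList]) (.term h1)
  | q1 ha _ h1 => exact skip_rule (by decide) ha h1
  | d0 => exact yd_rule (s := []) (by simp [ruleList]) .nil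
  | @d1 b u v _ _ h1 h2 =>
    exact yd_rule (s := [.terminal (.push b), .nonterminal .D, .terminal (.pop b),
      .nonterminal .D]) (by cases b <;> simp [ruleList]) (.term (h1.append (.term h2)))
  | d2 _ _ h1 h2 =>
    exact yd_rule (s := [.terminal .sep, .nonterminal .P, .nonterminal .D])
      (by simp [ruleList]) (.term (h1.append h2))
  | d3 _ _ h1 h2 =>
    exact yd_rule (s := [.terminal .yes, .nonterminal .Q, .nonterminal .D])
      (by simp [ruleList]) (.term (h1.append h2))
  | d4 _ _ h1 h2 =>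
    exact yd_rule (s := [.terminal .no, .nonterminal .Q, .nonterminal .D])
      (by simp [ruleList]) (.term (h1.append h2))
  | e0 _ h1 =>
    exact yd_rule (s := [.terminal .sep, .nonterminal .K]) (by simp [ruleList]) (.term h1)
  | e1 _ h1 =>
    exact yd_rule (s := [.terminal .yes, .nonterminal .G]) (by simp [ruleList]) (.term h1)
  | e2 _ h1 =>
    exact yd_rule (s := [.terminal .no, .nonterminal .G]) (by simp [ruleList]) (.term h1)
  | g0 _ h1 =>
    exact yd_rule (s := [.terminal .sep, .nonterminal .K]) (by simp [ruleList]) (.term h1)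
  | g1 ha _ h1 => exact skip_rule (by decide) ha h1

theorem gram_language : gram.language = lang := by
  ext w
  rw [mem_lang_iff, ContextFreeGrammar.mem_language_iff, yd_iff]
  constructor
  · intro h
    obtain ⟨u, v, rfl, h1, h2⟩ := YL_of_yd h
    have : v = [] := h2
    subst this
    rw [List.append_nil]
    exact h1
  · intro h
    exact h.yd

/-- **The language is context-free.** -/
theorem isContextFree : lang.IsContextFree := ⟨gram, gram_language⟩

end Pool.Agent.W985.RK
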