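import Pool.Agent.W985.RK.Word

/-!
# Templates of the words
-/

namespace Pool.Agent.W985.RK

variable {X : Type}

/-- Inserting the flags. -/
def ev (F : X → Bool) : Lt ⊕ X → Lt := Sum.elim id fun x => flag (F x)

/-- The template of a flag. -/
def tf : Bool ⊕ X → Lt ⊕ X := Sum.map flag id

/-- The template of a list of rows. -/
def tRows (rs : List (Row X)) : List (Lt ⊕ X) :=
  rs.flatMap fun r => tf r.1 :: r.2.map fun c => Sum.inl (cl c)

/-- The template of a list of blocks. -/
def tmpl (bs : List (List (Row X))) : List (Lt ⊕ X) :=
  bs.flatMap fun b => tRows b ++ [Sum.inl .sep]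

theorem ev_tf (F : X → Bool) (a : Bool ⊕ X) : ev F (tf a) = flag (val F a) := by
  cases a <;> rfl

theorem map_tRows (F : X → Bool) : ∀ rs : List (Row X), (tRows rs).map (ev F) = rowsW F rs := by
  intro rs
  induction rs with
  | nil => rfl
  | cons r rs ih =>
    rw [rowsW_cons]
    unfold tRows at ih ⊢
    rw [List.flatMap_cons, List.map_append, ih, List.map_cons, ev_tf, List.map_map]
    rfl

theorem map_tmpl (F : X → Bool) : ∀ bs : List (List (Row X)),
    (tmpl bs).map (ev F) = wordL F bs := by
  intro bs
  induction bs with
  | nil => rfl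
  | cons b bs ih =>
    unfold tmpl wordL at ih ⊢
    rw [List.flatMap_cons, List.map_append, ih, List.map_append, map_tRows]
    rfl

/-- The variables of a template. -/
def vars (t : List (Lt ⊕ X)) : List X := t.filterMap Sum.getRight?

theorem mem_vars {t : List (Lt ⊕ X)} {x : X} : x ∈ vars t ↔ Sum.inr x ∈ t := by
  unfold vars
  rw [List.mem_filterMap]
  constructor
  · rintro ⟨a, h1, h2⟩
    rw [Sum.getRight?_eq_some_iff] at h2
    rw [← h2]
    exact h1
  · intro h
    exact ⟨_, h, rfl⟩

/-- If the variables are different then each of them occurs only once. -/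
theorem uniq_of_nodup : ∀ t : List (Lt ⊕ X), (vars t).Nodup → ∀ (i j : ℕ) (x : X),
    t[i]? = some (Sum.inr x) → t[j]? = some (Sum.inr x) → i = j := by
  intro t
  induction t with
  | nil =>
    intro _ i j x h
    simp at h
  | cons a t ih =>
    intro hnd i j x hi hj
    have hnd' : (vars t).Nodup := by
      cases a with
      | inl c => exact hnd
      | inr y => exact (List.nodup_cons.1 (show (y :: vars t).Nodup from hnd)).2
    have haux : ∀ k : ℕ, a = Sum.inr x → t[k]? ≠ some (Sum.inr x) := by
      intro k ha hk
      subst ha
      exact (List.nodup_cons.1 (show (x :: vars t).Nodup from hnd)).1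
        (mem_vars.2 (List.mem_of_getElem? hk))
    cases i with
    | zero =>
      rw [List.getElem?_cons_zero] at hi
      have ha := Option.some.inj hi
      cases j with
      | zero => rfl
      | succ j =>
        rw [List.getElem?_cons_succ] at hj
        exact absurd hj (haux j ha)
    | succ i =>
      rw [List.getElem?_cons_succ] at hi
      cases j with
      | zero =>
        rw [List.getElem?_cons_zero] at hj
        exact absurd hi (haux i (Option.some.inj hj))
      | succ j =>
        rw [List.getElem?_cons_succ] at hj
        rw [ih hnd' i j x hi hj]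

/-- The variables of a block. -/
def bv (b : List (Row X)) : List X := b.filterMap fun r => r.1.getRight?

theorem vars_append (s t : List (Lt ⊕ X)) : vars (s ++ t) = vars s ++ vars t :=
  List.filterMap_append

theorem vars_tRows : ∀ rs : List (Row X), vars (tRows rs) = bv rs := by
  intro rs
  induction rs with
  | nil => rfl
  | cons r rs ih =>
    have e : tRows (r :: rs) = tf r.1 :: ((r.2.map fun c => Sum.inl (cl c)) ++ tRows rs) := rfl
    have h0 : vars ((r.2.map fun c => Sum.inl (cl c)) : List (Lt ⊕ X)) = [] := by
      unfold vars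
      rw [List.filterMap_map]
      exact List.filterMap_eq_nil_iff.2 fun a _ => rfl
    rw [e]
    obtain ⟨a, t⟩ := r
    cases a with
    | inl c =>
      show vars ((t.map fun c => Sum.inl (cl c)) ++ tRows rs) = bv rs
      rw [vars_append, h0, ih]
      rfl
    | inr x =>
      show x :: vars ((t.map fun c => Sum.inl (cl c)) ++ tRows rs) = x :: bv rs
      rw [vars_append, h0, ih]
      rfl

theorem vars_tmpl : ∀ bs : List (List (Row X)), vars (tmpl bs) = bs.flatMap bv := by
  intro bs
  induction bs with
  | nil => rfl
  | cons b bs ih =>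
    have e : tmpl (b :: bs) = tRows b ++ ([Sum.inl .sep] ++ tmpl bs) := by
      unfold tmpl
      rw [List.flatMap_cons, List.append_assoc]
    rw [e, vars_append, vars_append, vars_tRows, ih, List.flatMap_cons]
    rfl

theorem length_tRows {M : ℕ} : ∀ rs : List (Row X), (∀ r ∈ rs, r.2.length ≤ M) →
    (tRows rs).length ≤ rs.length * (M + 1) := by
  intro rs
  induction rs with
  | nil => intro _; exact Nat.zero_le _
  | cons r rs ih =>
    intro h
    have e : tRows (r :: rs) = tf r.1 :: ((r.2.map fun c => Sum.inl (cl c)) ++ tRows rs) := rfl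
    rw [e, List.length_cons, List.length_append, List.length_map, List.length_cons]
    have h1 := h r List.mem_cons_self
    have h2 := ih fun r' hr' => h r' (List.mem_cons_of_mem _ hr')
    have h3 : (rs.length + 1) * (M + 1) = rs.length * (M + 1) + (M + 1) := by ring
    omega

theorem length_tmpl {M : ℕ} : ∀ bs : List (List (Row X)), (∀ b ∈ bs, (tRows b).length + 1 ≤ M) →
    (tmpl bs).length ≤ bs.length * M := by
  intro bs
  induction bs with
  | nil => intro _; exact Nat.zero_le _
  | cons b bs ih =>
    intro h
    have e : tmpl (b :: bs) = tRows b ++ ([Sum.inl .sep] ++ tmpl bs) := by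
      unfold tmpl
      rw [List.flatMap_cons, List.append_assoc]
    rw [e, List.length_append, List.length_append, List.length_singleton, List.length_cons]
    have h1 := h b List.mem_cons_self
    have h2 := ih fun b' hb' => h b' (List.mem_cons_of_mem _ hb')
    have h3 : (bs.length + 1) * M = bs.length * M + M := by ring
    omega

/-- A block without effect. -/
def padB (X : Type) (j : ℕ) : List (Row X) := (.inl true, []) :: List.replicate j (.inl false, [])

theorem step_padB {F : X → Bool} {j : ℕ} {σ σ' : List Bool} :
    Step F (padB X j) σ σ' ↔ σ' = σ := by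
  unfold Step padB
  constructor
  · rintro ⟨r, h1, h2, h3⟩
    rw [List.mem_cons] at h1
    rcases h1 with rfl | h1
    · exact h3
    · rw [List.mem_replicate] at h1
      rw [h1.2] at h2
      exact absurd (show false = true from h2) (by simp)
  · rintro rfl
    exact ⟨_, List.mem_cons_self, rfl, rfl⟩

theorem length_padB (j : ℕ) : (tRows (padB X j)).length = j + 1 := by
  have h : ∀ j, (tRows (List.replicate j ((.inl false, []) : Row X))).length = j := by
    intro j
    induction j with
    | zero => rfl
    | succ j ih =>
      rw [List.replicate_succ]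
      show (tRows (List.replicate j ((.inl false, []) : Row X))).length + 1 = j + 1
      rw [ih]
  show (tRows (List.replicate j ((.inl false, []) : Row X))).length + 1 = j + 1
  rw [h]

theorem bv_padB (j : ℕ) : bv (padB X j) = [] := by
  unfold bv
  rw [List.filterMap_eq_nil_iff]
  intro r hr
  unfold padB at hr
  rw [List.mem_cons, List.mem_replicate] at hr
  rcases hr with rfl | ⟨-, rfl⟩ <;> rfl

variable {p : ℕ} [Fact p.Prime] {D : ℕ}

theorem bv_leafB (u : X) : bv (leafB (p := p) u) =
    (Finset.univ : Finset (ZMod p)).toList.map fun v => (u, v) := by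
  unfold bv leafB
  rw [List.filterMap_map]
  exact congrFun List.filterMap_eq_map' _

theorem bv_const {b : List (Row X)} (h : ∀ r ∈ b, ∃ c, r.1 = .inl c) : bv b = [] := by
  unfold bv
  rw [List.filterMap_eq_nil_iff]
  intro r hr
  obtain ⟨c, hc⟩ := h r hr
  rw [hc]
  rfl

omit [Fact p.Prime] in
theorem bv_initB : bv (initB X p) = [] := bv_const fun r hr => by
  unfold initB at hr
  rw [List.mem_singleton] at hr
  exact ⟨true, by rw [hr]⟩

theorem bv_combB (c : ZMod p) : bv (combB X c) = [] := bv_const fun r hr => by
  unfold combB at hr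
  obtain ⟨q, -, rfl⟩ := List.mem_map.1 hr
  exact ⟨true, rfl⟩

theorem bv_finB : bv (finB X p) = [] := bv_const fun r hr => by
  unfold finB at hr
  obtain ⟨q, -, rfl⟩ := List.mem_map.1 hr
  exact ⟨true, rfl⟩

theorem bv_endB : bv (endB X p) = [] := bv_const fun r hr => by
  unfold endB at hr
  obtain ⟨q, -, rfl⟩ := List.mem_map.1 hr
  exact ⟨true, rfl⟩

theorem bvL_treeB (t : Fin D → ZMod p) (h : ℕ) (e : Lf D (h + 1) → X) :
    (treeB t (h + 1) e).flatMap bv =
      (List.finRange D).flatMap fun i => (treeB t h fun x => e (lf i x)).flatMap bv := by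
  show (initB X p :: ((List.finRange D).flatMap (fun i =>
      treeB t h (fun x => e (lf i x)) ++ [combB X (t i)]) ++ [finB X p])).flatMap bv = _
  rw [List.flatMap_cons, bv_initB, List.nil_append, List.flatMap_append, List.flatMap_cons,
    bv_finB, List.flatMap_nil, List.nil_append, List.append_nil, List.flatMap_assoc]
  congr 1
  funext i
  rw [List.flatMap_append, List.flatMap_cons, bv_combB, List.flatMap_nil, List.nil_append,
    List.append_nil]

theorem mem_bvL (t : Fin D → ZMod p) : ∀ (h : ℕ) (e : Lf D h → X) (q : X × ZMod p),
    q ∈ (treeB t h e).flatMap bv ↔ ∃ x, e x = q.1 := by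
  intro h
  induction h with
  | zero =>
    intro e q
    show q ∈ [leafB (e ())].flatMap bv ↔ _
    rw [List.flatMap_cons, List.flatMap_nil, List.append_nil, bv_leafB, List.mem_map]
    constructor
    · rintro ⟨v, -, rfl⟩
      exact ⟨(), rfl⟩
    · rintro ⟨x, hx⟩
      exact ⟨q.2, Finset.mem_toList.2 (Finset.mem_univ _), Prod.ext hx rfl⟩
  | succ h ih =>
    intro e q
    rw [bvL_treeB, List.mem_flatMap]
    constructor
    · rintro ⟨i, -, hi⟩
      obtain ⟨x, hx⟩ := (ih _ _).1 hi
      exact ⟨_, hx⟩
    · rintro ⟨x, hx⟩
      obtain ⟨l, y, rfl⟩ := Lf.cases' x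
      exact ⟨l, List.mem_finRange l, (ih _ _).2 ⟨y, hx⟩⟩

theorem nodup_bvL (t : Fin D → ZMod p) : ∀ (h : ℕ) (e : Lf D h → X), Function.Injective e →
    ((treeB t h e).flatMap bv).Nodup := by
  intro h
  induction h with
  | zero =>
    intro e _
    show ([leafB (e ())].flatMap bv).Nodup
    rw [List.flatMap_cons, List.flatMap_nil, List.append_nil, bv_leafB]
    exact (Finset.nodup_toList _).map fun r r' hr => (Prod.mk.inj hr).2
  | succ h ih =>
    intro e he
    rw [bvL_treeB, List.nodup_flatMap]
    refine ⟨fun i _ => ih _ fun x y hxy => (lf_inj.1 (he hxy)).2, ?_⟩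
    refine (List.nodup_finRange D).imp ?_
    intro i j hij q hi hj
    obtain ⟨x, hx⟩ := (mem_bvL t h _ _).1 hi
    obtain ⟨y, hy⟩ := (mem_bvL t h _ _).1 hj
    exact hij (lf_inj.1 (he (hx.trans hy.symm))).1

theorem length_pushes (s : List Bool) : (pushes s).length = s.length := by
  unfold pushes
  rw [List.length_map, List.length_reverse]

theorem length_pops (s : List Bool) : (pops s).length = s.length := List.length_map _

theorem card_toList : (Finset.univ : Finset (ZMod p)).toList.length = p := by
  rw [Finset.length_toList, Finset.card_univ, ZMod.card]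

omit [Fact p.Prime] in
theorem block_le {p : ℕ} {b : List (Row X)} (hp : 1 ≤ p) (h1 : b.length ≤ p ^ 3)
    (h2 : ∀ r ∈ b, r.2.length ≤ 5 * p) : (tRows b).length + 1 ≤ 7 * p ^ 4 := by
  have h3 := length_tRows b h2
  have h4 : b.length * (5 * p + 1) ≤ p ^ 3 * (6 * p) := Nat.mul_le_mul h1 (by omega)
  have h5 : p ^ 3 * (6 * p) = 6 * p ^ 4 := by ring
  have h6 : 1 ≤ p ^ 4 := Nat.one_le_pow _ _ hp
  omega

theorem one_le_p : 1 ≤ p := (Fact.out : p.Prime).one_lt.le

omit [Fact p.Prime] in
theorem p_le_cube : p ≤ p ^ 3 := Nat.le_self_pow (by norm_num) p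

theorem length_leafB (u : X) : (tRows (leafB (p := p) u)).length + 1 ≤ 7 * p ^ 4 := by
  refine block_le one_le_p ?_ ?_
  · unfold leafB
    rw [List.length_map, card_toList]
    exact p_le_cube
  · intro r hr
    obtain ⟨v, -, rfl⟩ := List.mem_map.1 hr
    have := enc_length v
    show (pushes (enc v)).length ≤ _
    rw [length_pushes]
    omega

theorem length_initB : (tRows (initB X p)).length + 1 ≤ 7 * p ^ 4 := by
  refine block_le one_le_p ?_ ?_
  · unfold initB
    rw [List.length_singleton]
    exact Nat.one_le_pow _ _ one_le_p
  · intro r hr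
    unfold initB at hr
    rw [List.mem_singleton] at hr
    subst hr
    have := enc_length (0 : ZMod p)
    show (pushes (enc (0 : ZMod p)) ++ pushes (enc (0 : ZMod p))).length ≤ _
    rw [List.length_append, length_pushes]
    omega

theorem length_combB (c : ZMod p) : (tRows (combB X c)).length + 1 ≤ 7 * p ^ 4 := by
  refine block_le one_le_p ?_ ?_
  · unfold combB
    rw [List.length_map, Finset.length_toList, Finset.card_univ, Fintype.card_prod,
      Fintype.card_prod, ZMod.card]
    exact le_of_eq (by ring)
  · intro r hr
    obtain ⟨⟨s, a, b⟩, -, rfl⟩ := List.mem_map.1 hr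
    have h1 := enc_length s
    have h2 := enc_length a
    have h3 := enc_length b
    have h4 := enc_length (b + c * s)
    have h5 := enc_length (a + s)
    show (pops (enc s) ++ (pops (enc a) ++ (pops (enc b) ++
      (pushes (enc (b + c * s)) ++ pushes (enc (a + s)))))).length ≤ _
    rw [List.length_append, List.length_append, List.length_append, List.length_append,
      length_pops, length_pops, length_pops, length_pushes, length_pushes]
    omega

theorem length_finB : (tRows (finB X p)).length + 1 ≤ 7 * p ^ 4 := by
  refine block_le one_le_p ?_ ?_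
  · unfold finB
    rw [List.length_map, card_toList]
    exact p_le_cube
  · intro r hr
    obtain ⟨v, -, rfl⟩ := List.mem_map.1 hr
    have h1 := enc_length v
    have h2 := enc_length (0 : ZMod p)
    show (pops (enc v) ++ (pops (enc (0 : ZMod p)) ++ pushes (enc v))).length ≤ _
    rw [List.length_append, List.length_append, length_pops, length_pops, length_pushes]
    omega

theorem length_endB : (tRows (endB X p)).length + 1 ≤ 7 * p ^ 4 := by
  refine block_le one_le_p ?_ ?_
  · unfold endB
    rw [List.length_map, card_toList]
    exact p_le_cube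
  · intro r hr
    obtain ⟨v, -, rfl⟩ := List.mem_map.1 hr
    have h1 := enc_length v
    show (pops (enc v)).length ≤ _
    rw [length_pops]
    omega

/-- The number of blocks of a tree. -/
def nb (D : ℕ) : ℕ → ℕ
  | 0 => 1
  | h + 1 => 2 + D * (nb D h + 1)

theorem treeB_blocks (t : Fin D → ZMod p) : ∀ (h : ℕ) (e : Lf D h → X),
    (treeB t h e).length = nb D h ∧ ∀ b ∈ treeB t h e, (tRows b).length + 1 ≤ 7 * p ^ 4 := by
  intro h
  induction h with
  | zero =>
    intro e
    refine ⟨rfl, fun b hb => ?_⟩
    have hb' : b ∈ [leafB (e ())] := hb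
    rw [List.mem_singleton] at hb'
    subst hb'
    exact length_leafB _
  | succ h ih =>
    intro e
    constructor
    · show ((List.finRange D).flatMap (fun i =>
        treeB t h (fun x => e (lf i x)) ++ [combB X (t i)]) ++ [finB X p]).length + 1 = nb D (h + 1)
      rw [List.length_append, List.length_flatMap]
      have : (List.finRange D).map (fun i => (treeB t h (fun x => e (lf i x)) ++
          [combB X (t i)]).length) = (List.finRange D).map fun _ => nb D h + 1 :=
        List.map_congr_left fun i _ => by
          rw [List.length_append, (ih _).1, List.length_singleton]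
      rw [this, List.map_const', List.sum_replicate, List.length_finRange]
      show D * (nb D h + 1) + 1 + 1 = 2 + D * (nb D h + 1)
      omega
    · intro b hb
      have hb' : b ∈ initB X p :: ((List.finRange D).flatMap (fun i =>
        treeB t h (fun x => e (lf i x)) ++ [combB X (t i)]) ++ [finB X p]) := hb
      rw [List.mem_cons, List.mem_append, List.mem_flatMap, List.mem_singleton] at hb'
      rcases hb' with rfl | ⟨i, -, hb'⟩ | rfl
      · exact length_initB
      · rw [List.mem_append, List.mem_singleton] at hb'
        rcases hb' with hb' | rfl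
        · exact (ih _).2 b hb'
        · exact length_combB _
      · exact length_finB

end Pool.Agent.W985.RK
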