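import Pool.Agent.W985.RK.Code
import Pool.Agent.W985.RK.Lang

/-!
# Words for the labellings
-/

namespace Pool.Agent.W985.RK

/-- Pushes (`inl`) and pops (`inr`). -/
abbrev Cmd : Type := Bool ⊕ Bool

/-- The letter of a command. -/
def cl : Cmd → Lt
  | .inl b => .push b
  | .inr b => .pop b

/-- Executing a text. -/
def exec : List Cmd → List Bool → List Bool → Prop
  | [], σ, σ' => σ' = σ
  | .inl b :: t, σ, σ' => exec t (b :: σ) σ'
  | .inr b :: t, σ, σ' => ∃ ρ, σ = b :: ρ ∧ exec t ρ σ'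

theorem acc_exec (w : List Lt) : ∀ (t : List Cmd) (σ : List Bool),
    Acc (t.map cl ++ w) .act σ ↔ ∃ σ', exec t σ σ' ∧ Acc w .act σ' := by
  intro t
  induction t with
  | nil =>
    intro σ
    constructor
    · intro h
      exact ⟨σ, rfl, h⟩
    · rintro ⟨σ', rfl, h⟩
      exact h
  | cons c t ih =>
    intro σ
    cases c with
    | inl b => exact ih (b :: σ)
    | inr b =>
      show (∃ σ', σ = b :: σ' ∧ Acc (t.map cl ++ w) .act σ') ↔ _
      constructor
      · rintro ⟨ρ, rfl, h⟩
        obtain ⟨σ', h1, h2⟩ := (ih ρ).1 h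
        exact ⟨σ', ⟨ρ, rfl, h1⟩, h2⟩
      · rintro ⟨σ', ⟨ρ, rfl, h1⟩, h2⟩
        exact ⟨ρ, rfl, (ih ρ).2 ⟨σ', h1, h2⟩⟩

theorem acc_look_text (w : List Lt) : ∀ (t : List Cmd) (σ : List Bool),
    Acc (t.map cl ++ w) .look σ ↔ Acc w .look σ := by
  intro t
  induction t with
  | nil => intro σ; exact Iff.rfl
  | cons c t ih => intro σ; cases c <;> exact ih σ

theorem acc_done_text (w : List Lt) : ∀ (t : List Cmd) (σ : List Bool),
    Acc (t.map cl ++ w) .done σ ↔ Acc w .done σ := by
  intro t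
  induction t with
  | nil => intro σ; exact Iff.rfl
  | cons c t ih => intro σ; cases c <;> exact ih σ

/-- The flags. -/
def flag (b : Bool) : Lt := if b then .yes else .no

variable {X : Type}

/-- A row: the flag is fixed or a variable. -/
abbrev Row (X : Type) : Type := (Bool ⊕ X) × List Cmd

/-- The value of the flag of a row. -/
def val (F : X → Bool) : Bool ⊕ X → Bool := Sum.elim id F

/-- The word of the rows. -/
def rowsW (F : X → Bool) (rs : List (Row X)) : List Lt :=
  rs.flatMap fun r => flag (val F r.1) :: r.2.map cl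

/-- The word of a list of blocks. -/
def wordL (F : X → Bool) (bs : List (List (Row X))) : List Lt :=
  bs.flatMap fun b => rowsW F b ++ [.sep]

theorem rowsW_cons (F : X → Bool) (r : Row X) (rs : List (Row X)) :
    rowsW F (r :: rs) = flag (val F r.1) :: (r.2.map cl ++ rowsW F rs) := rfl

theorem acc_done_rows (F : X → Bool) (w : List Lt) (σ : List Bool) : ∀ rs : List (Row X),
    Acc (rowsW F rs ++ .sep :: w) .done σ ↔ Acc w .look σ := by
  intro rs
  induction rs with
  | nil => exact Iff.rfl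
  | cons r rs ih =>
    rw [rowsW_cons, List.cons_append, List.append_assoc]
    cases hf : val F r.1 with
    | true => exact (acc_done_text _ _ _).trans ih
    | false => exact (acc_done_text _ _ _).trans ih

theorem acc_act_rows (F : X → Bool) (w : List Lt) (σ : List Bool) (rs : List (Row X)) :
    Acc (rowsW F rs ++ .sep :: w) .act σ ↔ Acc w .look σ := by
  cases rs with
  | nil => exact Iff.rfl
  | cons r rs =>
    rw [rowsW_cons, List.cons_append, List.append_assoc]
    cases hf : val F r.1 with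
    | true => exact (acc_done_text _ _ _).trans (acc_done_rows F w σ rs)
    | false => exact (acc_done_text _ _ _).trans (acc_done_rows F w σ rs)

theorem acc_look_rows (F : X → Bool) (w : List Lt) (σ : List Bool) : ∀ rs : List (Row X),
    Acc (rowsW F rs ++ .sep :: w) .look σ ↔ ∃ r ∈ rs, val F r.1 = true ∧
      ∃ σ', exec r.2 σ σ' ∧ Acc w .look σ' := by
  intro rs
  induction rs with
  | nil =>
    constructor
    · intro h
      exact absurd h not_false
    · rintro ⟨r, hr, -⟩
      exact absurd hr List.not_mem_nil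
  | cons r rs ih =>
    rw [rowsW_cons, List.cons_append, List.append_assoc]
    cases hf : val F r.1 with
    | true =>
      show (Acc (r.2.map cl ++ (rowsW F rs ++ .sep :: w)) .look σ ∨
        Acc (r.2.map cl ++ (rowsW F rs ++ .sep :: w)) .act σ) ↔ _
      rw [acc_look_text, ih, acc_exec]
      constructor
      · rintro (⟨r', h1, h2⟩ | ⟨σ', h1, h2⟩)
        · exact ⟨r', List.mem_cons_of_mem _ h1, h2⟩
        · rw [acc_act_rows] at h2
          exact ⟨r, List.mem_cons_self, hf, σ', h1, h2⟩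
      · rintro ⟨r', h1, h2, σ', h3, h4⟩
        rw [List.mem_cons] at h1
        rcases h1 with rfl | h1
        · exact Or.inr ⟨σ', h3, (acc_act_rows _ _ _ _).2 h4⟩
        · exact Or.inl ⟨r', h1, h2, σ', h3, h4⟩
    | false =>
      show Acc (r.2.map cl ++ (rowsW F rs ++ .sep :: w)) .look σ ↔ _
      rw [acc_look_text, ih]
      constructor
      · rintro ⟨r', h1, h2⟩
        exact ⟨r', List.mem_cons_of_mem _ h1, h2⟩
      · rintro ⟨r', h1, h2, h3⟩
        rw [List.mem_cons] at h1
        rcases h1 with rfl | h1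
        · rw [hf] at h2
          exact absurd h2 (by simp)
        · exact ⟨r', h1, h2, h3⟩

/-- Executing a row of a block. -/
def Step (F : X → Bool) (b : List (Row X)) (σ σ' : List Bool) : Prop :=
  ∃ r ∈ b, val F r.1 = true ∧ exec r.2 σ σ'

/-- Executing a row of each block. -/
def Steps (F : X → Bool) : List (List (Row X)) → List Bool → List Bool → Prop
  | [], σ, σ' => σ' = σ
  | b :: bs, σ, σ' => ∃ ρ, Step F b σ ρ ∧ Steps F bs ρ σ'

theorem Steps.append_iff {F : X → Bool} : ∀ {bs bs' : List (List (Row X))} {σ σ' : List Bool},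
    Steps F (bs ++ bs') σ σ' ↔ ∃ ρ, Steps F bs σ ρ ∧ Steps F bs' ρ σ' := by
  intro bs
  induction bs with
  | nil =>
    intro bs' σ σ'
    constructor
    · intro h
      exact ⟨σ, rfl, h⟩
    · rintro ⟨ρ, rfl, h⟩
      exact h
  | cons b bs ih =>
    intro bs' σ σ'
    constructor
    · rintro ⟨ρ, h1, h2⟩
      obtain ⟨ρ', h3, h4⟩ := ih.1 h2
      exact ⟨ρ', ⟨ρ, h1, h3⟩, h4⟩
    · rintro ⟨ρ', ⟨ρ, h1, h3⟩, h4⟩
      exact ⟨ρ, h1, ih.2 ⟨ρ', h3, h4⟩⟩

theorem steps_one {F : X → Bool} {b : List (Row X)} {σ σ' : List Bool} :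
    Steps F [b] σ σ' ↔ Step F b σ σ' := by
  constructor
  · rintro ⟨ρ, h1, rfl⟩
    exact h1
  · intro h
    exact ⟨σ', h, rfl⟩

theorem acc_blocks (F : X → Bool) (w : List Lt) : ∀ (bs : List (List (Row X))) (σ : List Bool),
    Acc (wordL F bs ++ w) .look σ ↔ ∃ σ', Steps F bs σ σ' ∧ Acc w .look σ' := by
  intro bs
  induction bs with
  | nil =>
    intro σ
    constructor
    · intro h
      exact ⟨σ, rfl, h⟩
    · rintro ⟨σ', rfl, h⟩
      exact h
  | cons b bs ih =>
    intro σ
    have e : wordL F (b :: bs) ++ w = rowsW F b ++ .sep :: (wordL F bs ++ w) := by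
      unfold wordL
      rw [List.flatMap_cons]
      simp
    rw [e, acc_look_rows]
    constructor
    · rintro ⟨r, h1, h2, ρ, h3, h4⟩
      obtain ⟨σ', h5, h6⟩ := (ih ρ).1 h4
      exact ⟨σ', ⟨ρ, ⟨r, h1, h2, h3⟩, h5⟩, h6⟩
    · rintro ⟨σ', ⟨ρ, ⟨r, h1, h2, h3⟩, h5⟩, h6⟩
      exact ⟨r, h1, h2, ρ, h3, (ih ρ).2 ⟨σ', h5, h6⟩⟩

theorem mem_lang (F : X → Bool) (bs : List (List (Row X))) :
    wordL F bs ∈ lang ↔ Steps F bs [] [] := by
  have h := acc_blocks F [] bs []
  rw [List.append_nil] at h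
  refine h.trans ⟨?_, fun h => ⟨[], h, rfl⟩⟩
  rintro ⟨σ', h1, h2⟩
  have : σ' = [] := h2
  subst this
  exact h1

/-- Pushing a word. -/
def pushes (s : List Bool) : List Cmd := s.reverse.map .inl

/-- Popping a word. -/
def pops (s : List Bool) : List Cmd := s.map .inr

theorem exec_append : ∀ {s t : List Cmd} {σ σ' : List Bool},
    exec (s ++ t) σ σ' ↔ ∃ ρ, exec s σ ρ ∧ exec t ρ σ' := by
  intro s
  induction s with
  | nil =>
    intro t σ σ'
    constructor
    · intro h
      exact ⟨σ, rfl, h⟩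
    · rintro ⟨ρ, rfl, h⟩
      exact h
  | cons c s ih =>
    intro t σ σ'
    cases c with
    | inl b => exact ih
    | inr b =>
      constructor
      · rintro ⟨ρ, rfl, h⟩
        obtain ⟨ρ', h1, h2⟩ := ih.1 h
        exact ⟨ρ', ⟨ρ, rfl, h1⟩, h2⟩
      · rintro ⟨ρ', ⟨ρ, rfl, h1⟩, h2⟩
        exact ⟨ρ, rfl, ih.2 ⟨ρ', h1, h2⟩⟩

theorem exec_push_map : ∀ (s σ σ' : List Bool),
    exec (s.map .inl) σ σ' ↔ σ' = s.reverse ++ σ := by
  intro s
  induction s with
  | nil => intro σ σ'; exact Iff.rfl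
  | cons b s ih =>
    intro σ σ'
    refine (ih (b :: σ) σ').trans ?_
    rw [List.reverse_cons, List.append_assoc]
    rfl

theorem exec_pushes (s σ σ' : List Bool) : exec (pushes s) σ σ' ↔ σ' = s ++ σ := by
  unfold pushes
  rw [exec_push_map, List.reverse_reverse]

theorem exec_pops : ∀ (s σ σ' : List Bool), exec (pops s) σ σ' ↔ σ = s ++ σ' := by
  intro s
  induction s with
  | nil => intro σ σ'; exact eq_comm
  | cons b s ih =>
    intro σ σ'
    constructor
    · rintro ⟨ρ, rfl, h⟩
      rw [(ih ρ σ').1 h]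
      rfl
    · intro h
      exact ⟨s ++ σ', h, (ih _ _).2 rfl⟩

/-- The code of a number. -/
def enc {p : ℕ} (a : ZMod p) : List Bool := List.replicate a.val true ++ [false]

theorem rep_inj : ∀ {i j : ℕ} {σ τ : List Bool},
    List.replicate i true ++ false :: σ = List.replicate j true ++ false :: τ →
      i = j ∧ σ = τ := by
  intro i
  induction i with
  | zero =>
    intro j σ τ h
    cases j with
    | zero => exact ⟨rfl, (List.cons.inj h).2⟩
    | succ j =>
      rw [List.replicate_succ, List.cons_append] at h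
      exact absurd (List.cons.inj h).1 (by simp)
  | succ i ih =>
    intro j σ τ h
    cases j with
    | zero =>
      rw [List.replicate_succ, List.cons_append] at h
      exact absurd (List.cons.inj h).1 (by simp)
    | succ j =>
      rw [List.replicate_succ, List.cons_append, List.replicate_succ, List.cons_append] at h
      obtain ⟨h1, h2⟩ := ih (List.cons.inj h).2
      exact ⟨by rw [h1], h2⟩

theorem enc_inj {p : ℕ} [NeZero p] {a b : ZMod p} {σ τ : List Bool}
    (h : enc a ++ σ = enc b ++ τ) : a = b ∧ σ = τ := by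
  unfold enc at h
  rw [List.append_assoc, List.append_assoc] at h
  obtain ⟨h1, h2⟩ := rep_inj h
  exact ⟨ZMod.val_injective p h1, h2⟩

theorem enc_length {p : ℕ} [NeZero p] (a : ZMod p) : (enc a).length ≤ p := by
  unfold enc
  rw [List.length_append, List.length_replicate, List.length_singleton]
  exact ZMod.val_lt a

variable {p : ℕ} [Fact p.Prime] {D : ℕ}

/-- The block of a leaf. -/
noncomputable def leafB (u : X) : List (Row (X × ZMod p)) :=
  (Finset.univ : Finset (ZMod p)).toList.map fun v => (.inr (u, v), pushes (enc v))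

/-- The first block of a node. -/
def initB (X : Type) (p : ℕ) : List (Row (X × ZMod p)) :=
  [(.inl true, pushes (enc (0 : ZMod p)) ++ pushes (enc (0 : ZMod p)))]

/-- The block which adds the value of a child. -/
noncomputable def combB (X : Type) (c : ZMod p) : List (Row (X × ZMod p)) :=
  (Finset.univ : Finset (ZMod p × ZMod p × ZMod p)).toList.map fun q =>
    (.inl true, pops (enc q.1) ++ (pops (enc q.2.1) ++ (pops (enc q.2.2) ++
      (pushes (enc (q.2.2 + c * q.1)) ++ pushes (enc (q.2.1 + q.1))))))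

/-- The last block of a node. -/
noncomputable def finB (X : Type) (p : ℕ) [Fact p.Prime] : List (Row (X × ZMod p)) :=
  (Finset.univ : Finset (ZMod p)).toList.map fun v =>
    (.inl true, pops (enc v) ++ (pops (enc (0 : ZMod p)) ++ pushes (enc v)))

/-- The block at the end. -/
noncomputable def endB (X : Type) (p : ℕ) [Fact p.Prime] : List (Row (X × ZMod p)) :=
  (Finset.univ : Finset (ZMod p)).toList.map fun v => (.inl true, pops (enc v))

theorem step_leafB {F : X × ZMod p → Bool} {u : X} {σ σ' : List Bool} :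
    Step F (leafB u) σ σ' ↔ ∃ v, F (u, v) = true ∧ σ' = enc v ++ σ := by
  unfold Step leafB
  constructor
  · rintro ⟨r, h1, h2, h3⟩
    obtain ⟨v, -, rfl⟩ := List.mem_map.1 h1
    exact ⟨v, h2, (exec_pushes _ _ _).1 h3⟩
  · rintro ⟨v, h1, h2⟩
    exact ⟨_, List.mem_map.2 ⟨v, Finset.mem_toList.2 (Finset.mem_univ _), rfl⟩, h1,
      (exec_pushes _ _ _).2 h2⟩

theorem step_initB {F : X × ZMod p → Bool} {σ σ' : List Bool} :
    Step F (initB X p) σ σ' ↔ σ' = enc (0 : ZMod p) ++ (enc (0 : ZMod p) ++ σ) := by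
  unfold Step initB
  constructor
  · rintro ⟨r, h1, h2, h3⟩
    rw [List.mem_singleton] at h1
    subst h1
    obtain ⟨ρ, h4, h5⟩ := exec_append.1 h3
    rw [(exec_pushes _ _ _).1 h5, (exec_pushes _ _ _).1 h4]
  · intro h
    exact ⟨_, List.mem_singleton.2 rfl, rfl, exec_append.2 ⟨_, (exec_pushes _ _ _).2 rfl,
      (exec_pushes _ _ _).2 h⟩⟩

theorem step_combB {F : X × ZMod p → Bool} {c s a b : ZMod p} {σ σ' : List Bool} :
    Step F (combB X c) (enc s ++ (enc a ++ (enc b ++ σ))) σ' ↔
      σ' = enc (a + s) ++ (enc (b + c * s) ++ σ) := by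
  unfold Step combB
  constructor
  · rintro ⟨r, h1, -, h3⟩
    obtain ⟨⟨s', a', b'⟩, -, rfl⟩ := List.mem_map.1 h1
    obtain ⟨ρ1, h4, k1⟩ := exec_append.1 h3
    obtain ⟨ρ2, h5, k2⟩ := exec_append.1 k1
    obtain ⟨ρ3, h6, k3⟩ := exec_append.1 k2
    obtain ⟨ρ4, h7, k4⟩ := exec_append.1 k3
    obtain ⟨rfl, rfl⟩ := enc_inj ((exec_pops _ _ _).1 h4)
    obtain ⟨rfl, rfl⟩ := enc_inj ((exec_pops _ _ _).1 h5)
    obtain ⟨rfl, rfl⟩ := enc_inj ((exec_pops _ _ _).1 h6)
    rw [(exec_pushes _ _ _).1 k4, (exec_pushes _ _ _).1 h7]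
  · intro h
    refine ⟨_, List.mem_map.2 ⟨(s, a, b), Finset.mem_toList.2 (Finset.mem_univ _), rfl⟩, rfl, ?_⟩
    exact exec_append.2 ⟨_, (exec_pops _ _ _).2 rfl, exec_append.2 ⟨_, (exec_pops _ _ _).2 rfl,
      exec_append.2 ⟨_, (exec_pops _ _ _).2 rfl, exec_append.2 ⟨_, (exec_pushes _ _ _).2 rfl,
      (exec_pushes _ _ _).2 h⟩⟩⟩⟩

theorem step_finB {F : X × ZMod p → Bool} {a b : ZMod p} {σ σ' : List Bool} :
    Step F (finB X p) (enc a ++ (enc b ++ σ)) σ' ↔ b = 0 ∧ σ' = enc a ++ σ := by
  unfold Step finB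
  constructor
  · rintro ⟨r, h1, -, h3⟩
    obtain ⟨v, -, rfl⟩ := List.mem_map.1 h1
    obtain ⟨ρ1, h4, h3⟩ := exec_append.1 h3
    obtain ⟨ρ2, h5, h3⟩ := exec_append.1 h3
    obtain ⟨rfl, rfl⟩ := enc_inj ((exec_pops _ _ _).1 h4)
    obtain ⟨h6, rfl⟩ := enc_inj ((exec_pops _ _ _).1 h5)
    exact ⟨h6, (exec_pushes _ _ _).1 h3⟩
  · rintro ⟨rfl, h⟩
    refine ⟨_, List.mem_map.2 ⟨a, Finset.mem_toList.2 (Finset.mem_univ _), rfl⟩, rfl, ?_⟩
    exact exec_append.2 ⟨_, (exec_pops _ _ _).2 rfl, exec_append.2 ⟨_, (exec_pops _ _ _).2 rfl,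
      (exec_pushes _ _ _).2 h⟩⟩

theorem step_endB {F : X × ZMod p → Bool} {a : ZMod p} {σ σ' : List Bool} :
    Step F (endB X p) (enc a ++ σ) σ' ↔ σ' = σ := by
  unfold Step endB
  constructor
  · rintro ⟨r, h1, -, h3⟩
    obtain ⟨v, -, rfl⟩ := List.mem_map.1 h1
    obtain ⟨-, rfl⟩ := enc_inj ((exec_pops _ _ _).1 h3)
    rfl
  · rintro rfl
    exact ⟨_, List.mem_map.2 ⟨a, Finset.mem_toList.2 (Finset.mem_univ _), rfl⟩, rfl,
      (exec_pops _ _ _).2 rfl⟩

/-- The blocks of a tree. -/
noncomputable def treeB (t : Fin D → ZMod p) : (h : ℕ) → (Lf D h → X) →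
    List (List (Row (X × ZMod p)))
  | 0, e => [leafB (e ())]
  | h + 1, e => initB X p :: ((List.finRange D).flatMap (fun i =>
      treeB t h (fun x => e (lf i x)) ++ [combB X (t i)]) ++ [finB X p])

theorem steps_children {t : Fin D → ZMod p} {h : ℕ} {F : X × ZMod p → Bool}
    (e : Lf D (h + 1) → X)
    (ih : ∀ (i : Fin D) (σ σ' : List Bool), Steps F (treeB t h fun x => e (lf i x)) σ σ' ↔
      ∃ z : Lf D h → ZMod p, (∀ x, F (e (lf i x), z x) = true) ∧ Chk t h z ∧
        σ' = enc (sm z) ++ σ) : ∀ (L : List (Fin D)), L.Nodup → ∀ (a b : ZMod p)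
    (σ σ' : List Bool),
    Steps F (L.flatMap fun i => treeB t h (fun x => e (lf i x)) ++ [combB X (t i)])
      (enc a ++ (enc b ++ σ)) σ' ↔ ∃ z : Lf D (h + 1) → ZMod p,
        (∀ i ∈ L, (∀ x, F (e (lf i x), z (lf i x)) = true) ∧ Chk t h fun x => z (lf i x)) ∧
        σ' = enc (a + (L.map fun i => sm fun x => z (lf i x)).sum) ++
          (enc (b + (L.map fun i => t i * sm fun x => z (lf i x)).sum) ++ σ) := by
  intro L
  induction L with
  | nil =>
    intro _ a b σ σ'
    constructor
    · intro h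
      refine ⟨fun _ => 0, fun i hi => absurd hi List.not_mem_nil, ?_⟩
      have : σ' = enc a ++ (enc b ++ σ) := h
      simpa using this
    · rintro ⟨z, -, h⟩
      show σ' = enc a ++ (enc b ++ σ)
      simpa using h
  | cons i L ihL =>
    intro hnd a b σ σ'
    rw [List.nodup_cons] at hnd
    rw [List.flatMap_cons, Steps.append_iff]
    constructor
    · rintro ⟨ρ, h1, h2⟩
      obtain ⟨ρ', h3, h4⟩ := Steps.append_iff.1 h1
      obtain ⟨y, y1, y2, rfl⟩ := (ih _ _ _).1 h3
      rw [steps_one, step_combB] at h4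
      subst h4
      obtain ⟨z, z1, z2⟩ := (ihL hnd.2 _ _ _ _).1 h2
      classical
      obtain ⟨z', hz'⟩ : ∃ z' : Lf D (h + 1) → ZMod p, z' = fun x =>
        if x.1 = i then y x.2 else z x := ⟨_, rfl⟩
      have e1 : (fun x => z' (lf i x)) = y := by
        funext x
        rw [hz']
        exact if_pos rfl
      have e2 : ∀ j ∈ L, (fun x => z' (lf j x)) = fun x => z (lf j x) := by
        intro j hj
        funext x
        rw [hz']
        refine if_neg ?_
        rintro rfl
        exact hnd.1 hj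
      refine ⟨z', fun j hj => ?_, ?_⟩
      · rw [List.mem_cons] at hj
        rcases hj with rfl | hj
        · refine ⟨fun x => ?_, by rw [e1]; exact y2⟩
          have : z' (lf j x) = y x := congrFun e1 x
          rw [this]
          exact y1 x
        · refine ⟨fun x => ?_, by rw [e2 j hj]; exact (z1 j hj).2⟩
          have : z' (lf j x) = z (lf j x) := congrFun (e2 j hj) x
          rw [this]
          exact (z1 j hj).1 x
      · rw [List.map_cons, List.map_cons, List.sum_cons, List.sum_cons, e1]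
        have f1 : (L.map fun i => sm fun x => z' (lf i x)) = L.map fun i => sm fun x =>
          z (lf i x) := List.map_congr_left fun j hj => by rw [e2 j hj]
        have f2 : (L.map fun i => t i * sm fun x => z' (lf i x)) = L.map fun i => t i *
          sm fun x => z (lf i x) := List.map_congr_left fun j hj => by rw [e2 j hj]
        rw [f1, f2, ← add_assoc, ← add_assoc]
        exact z2
    · rintro ⟨z, z1, z2⟩
      obtain ⟨y1, y2⟩ := z1 i List.mem_cons_self
      refine ⟨_, Steps.append_iff.2 ⟨_, (ih i _ _).2 ⟨fun x => z (lf i x), y1, y2, rfl⟩,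
        steps_one.2 (step_combB.2 rfl)⟩, (ihL hnd.2 _ _ _ _).2 ⟨z, fun j hj =>
          z1 j (List.mem_cons_of_mem _ hj), ?_⟩⟩
      rw [List.map_cons, List.map_cons, List.sum_cons, List.sum_cons, ← add_assoc,
        ← add_assoc] at z2
      exact z2

/-- **The blocks of a tree compute the sum of a labelling which satisfies the checks.** -/
theorem steps_treeB {t : Fin D → ZMod p} {F : X × ZMod p → Bool} : ∀ (h : ℕ) (e : Lf D h → X)
    (σ σ' : List Bool), Steps F (treeB t h e) σ σ' ↔ ∃ z : Lf D h → ZMod p,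
      (∀ x, F (e x, z x) = true) ∧ Chk t h z ∧ σ' = enc (sm z) ++ σ := by
  intro h
  induction h with
  | zero =>
    intro e σ σ'
    show Steps F [leafB (e ())] σ σ' ↔ _
    rw [steps_one, step_leafB]
    constructor
    · rintro ⟨v, h1, h2⟩
      refine ⟨fun _ => v, fun x => h1, trivial, ?_⟩
      have : sm (fun _ : Lf D 0 => v) = v := by
        show ∑ _x : Unit, v = v
        simp
      rw [this]
      exact h2
    · rintro ⟨z, h1, -, h2⟩
      refine ⟨z (), h1 (), ?_⟩
      have : sm z = z () := Finset.sum_singleton (fun x : Unit => z x) ()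
      rw [this] at h2
      exact h2
  | succ h ih =>
    intro e σ σ'
    constructor
    · rintro ⟨ρ, h1, h2⟩
      rw [step_initB] at h1
      subst h1
      obtain ⟨ρ, h3, h4⟩ := Steps.append_iff.1 h2
      obtain ⟨z, z1, rfl⟩ := (steps_children e (fun i => ih _) _ (List.nodup_finRange D)
        0 0 σ ρ).1 h3
      rw [steps_one, step_finB] at h4
      obtain ⟨h5, h6⟩ := h4
      rw [zero_add] at h5 h6
      refine ⟨z, fun x => ?_, ⟨?_, fun i => (z1 i (List.mem_finRange i)).2⟩, ?_⟩
      · obtain ⟨l, y, rfl⟩ := Lf.cases' x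
        exact (z1 l (List.mem_finRange l)).1 y
      · unfold rc
        rw [← h5]
        exact (List.sum_ofFn (f := fun i => t i * sm fun x => z (lf i x))).symm.trans
          (by rw [List.ofFn_eq_map])
      · rw [h6, sm_succ, ← List.sum_ofFn, List.ofFn_eq_map]
    · rintro ⟨z, z1, ⟨z2, z3⟩, rfl⟩
      refine ⟨_, step_initB.2 rfl, Steps.append_iff.2 ⟨_, (steps_children e (fun i => ih _) _
        (List.nodup_finRange D) 0 0 σ _).2 ⟨z, fun i _ => ⟨fun x => z1 _, z3 i⟩, rfl⟩,
        steps_one.2 (step_finB.2 ⟨?_, ?_⟩)⟩⟩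
      · rw [zero_add, ← List.ofFn_eq_map, List.sum_ofFn]
        exact z2
      · rw [zero_add, sm_succ, ← List.sum_ofFn, List.ofFn_eq_map]

end Pool.Agent.W985.RK
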